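import Mathlib
import Pool.Agent.Q73.AD.FinQ
import Pool.Agent.Q73.AD.TR1
import Pool.Agent.Q63.ISE.Man

/-!
# Quasi-symmetry of the positivity and negativity sets, all closed surfaces (MP_177f55_an, Q1)

For every closed connected Riemannian surface the ratio of the areas of `{f > 0}` and `{f < 0}` is
between two positive constants, for all eigenfunctions `f`. The area is the two-dimensional Hausdorff
measure for the geodesic distance.

Proof. Every square of size `C / √lam` contains a zero of `f`. By the bound for the average doubling index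
(MP_c7f82c_an.BoundedAverage) `f` has a bounded doubling index on small discs (radius `a / √lam`, `a`
small) around a positive proportion of `≍ lam` such zeros; there the positive part has area at least
`c / lam` (Harnack).
The surface is a Riemannian manifold of dimension two in the sense of Mathlib; it has isothermal charts by
`Pool.Agent.Q63.ISE.atlas`.
-/

set_option autoImplicit false
open MeasureTheory Filter Topology Complex Bundle
open scoped ContDiff Manifold

namespace Pool.Agent.Results.MP_177f55_an.QuasiSymmetry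

noncomputable section

universe u v

/-- the Laplacian of the plane `ℂ`: `∂_x² + ∂_y²` -/
def laplacian (f : ℂ → ℝ) (z : ℂ) : ℝ :=
  fderiv ℝ (fun w => fderiv ℝ f w 1) z 1 + fderiv ℝ (fun w => fderiv ℝ f w I) z I

/-- The lengths of the piecewise `C¹` curves from `x` to `y` on a surface with charts
`φ i : U i → M` and the metric `ρ i |dz|²` in the `i`-th chart: the `k`-th piece of the curve is
`φ (i k) ∘ γ k` on `[0, 1]`, it goes from `P k` to `P (k + 1)`. -/
def curveLengths {M : Type u} {ι : Type v} (U : ι → Set ℂ) (φ : ι → ℂ → M) (ρ : ι → ℂ → ℝ)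
    (x y : M) : Set ℝ :=
  {l | ∃ (n : ℕ) (i : ℕ → ι) (γ : ℕ → ℝ → ℂ) (P : ℕ → M), P 0 = x ∧ P n = y ∧
    (∀ k < n, ContDiff ℝ 1 (γ k) ∧ (∀ t ∈ Set.Icc (0 : ℝ) 1, γ k t ∈ U (i k)) ∧
      φ (i k) (γ k 0) = P k ∧ φ (i k) (γ k 1) = P (k + 1)) ∧
    l = ∑ k ∈ Finset.range n, ∫ t in (0 : ℝ)..1, Real.sqrt (ρ (i k) (γ k t)) * ‖deriv (γ k) t‖}

/-- A Riemannian surface given by isothermal charts: the charts `φ i`, defined on the open subsets `U i`
of the plane, are homeomorphisms onto open sets that cover `M`; in the `i`-th chart the metric is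
`ρ i |dz|²` with `ρ i > 0` of class `C¹`; the transition maps are isometries for these metrics; the
distance of `M` is the geodesic distance, the infimum of the lengths of curves. -/
structure RiemannianSurface {M : Type u} {ι : Type v} [MetricSpace M] (U : ι → Set ℂ)
    (φ : ι → ℂ → M) (ρ : ι → ℂ → ℝ) : Prop where
  isOpen_domain : ∀ i, IsOpen (U i)
  injective_chart : ∀ i, Set.InjOn (φ i) (U i)
  continuous_chart : ∀ i, ContinuousOn (φ i) (U i)
  open_chart : ∀ i (S : Set ℂ), IsOpen S → S ⊆ U i → IsOpen (φ i '' S)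
  cover : ∀ x : M, ∃ i, x ∈ φ i '' U i
  density_pos : ∀ i, ∀ z ∈ U i, 0 < ρ i z
  density_smooth : ∀ i, ContDiffOn ℝ 1 (ρ i) (U i)
  transition : ∀ i j, ∀ z ∈ U i, ∀ w ∈ U j, φ i z = φ j w → ∃ τ : ℂ → ℂ, τ z = w ∧
    (∀ᶠ z' in 𝓝 z, τ z' ∈ U j ∧ φ j (τ z') = φ i z') ∧ DifferentiableAt ℝ τ z ∧
    ∀ v : ℂ, ρ j w * ‖fderiv ℝ τ z v‖ ^ 2 = ρ i z * ‖v‖ ^ 2
  geodesic : ∀ x y : M, dist x y = sInf (curveLengths U φ ρ x y)

/-- `f` is a real smooth eigenfunction on `M`, `Δ_g f + lam f = 0`, `f ≢ 0`: in the chart `φ i` the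
Laplace-Beltrami operator is `Δ / ρ i` -/
structure IsEigenfunction {M : Type u} {ι : Type v} (U : ι → Set ℂ) (φ : ι → ℂ → M)
    (ρ : ι → ℂ → ℝ) (lam : ℝ) (f : M → ℝ) : Prop where
  smooth : ∀ i, ContDiffOn ℝ ∞ (fun z => f (φ i z)) (U i)
  eq : ∀ i, ∀ z ∈ U i, laplacian (fun z => f (φ i z)) z + lam * ρ i z * f (φ i z) = 0
  ne : ∃ x, f x ≠ 0

/-! ### Riemannian manifolds of dimension two in the sense of Mathlib, modelled on a real normed space `E`
with a basis `b` of two vectors (for instance the Euclidean plane) -/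

section

variable {E : Type v} [NormedAddCommGroup E] [NormedSpace ℝ E] (b : Module.Basis (Fin 2) ℝ E)
  {M : Type u} [TopologicalSpace M] [ChartedSpace E M]

/-- the coordinate vector `∂_i` of the chart at `x₀`, at the point with coordinates `z` -/
def coordVec (x₀ : M) (z : E) (i : Fin 2) :
    TangentSpace 𝓘(ℝ, E) ((extChartAt 𝓘(ℝ, E) x₀).symm z) :=
  mfderiv 𝓘(ℝ, E) 𝓘(ℝ, E) (extChartAt 𝓘(ℝ, E) x₀).symm z (b i)

/-- the matrix `g_ij = ⟨∂_i, ∂_j⟩` of the metric in the chart at `x₀` -/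
def metricMatrix [RiemannianBundle (fun x : M => TangentSpace 𝓘(ℝ, E) x)] (x₀ : M) (z : E) :
    Matrix (Fin 2) (Fin 2) ℝ :=
  Matrix.of fun i j => inner ℝ (coordVec b x₀ z i) (coordVec b x₀ z j)

/-- the Laplace-Beltrami operator in coordinates: `(det g)^(-1/2) ∑_i ∂_i ((det g)^(1/2) ∑_j g^ij ∂_j h)` -/
def laplaceBeltrami (g : E → Matrix (Fin 2) (Fin 2) ℝ) (h : E → ℝ) (z : E) : ℝ :=
  (√((g z).det))⁻¹ * ∑ i, fderiv ℝ (fun y => √((g y).det) *
    ∑ j, (g y)⁻¹ i j * fderiv ℝ h y (b j)) z (b i)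

/-- `f` is a real smooth eigenfunction on the Riemannian manifold `M`: `Δ_g f + lam f = 0`, `f ≢ 0` -/
structure IsEigenfunctionOn [RiemannianBundle (fun x : M => TangentSpace 𝓘(ℝ, E) x)] (lam : ℝ)
    (f : M → ℝ) : Prop where
  smooth : ContMDiff 𝓘(ℝ, E) 𝓘(ℝ, ℝ) ∞ f
  eq : ∀ x₀ : M, ∀ z ∈ (extChartAt 𝓘(ℝ, E) x₀).target,
    laplaceBeltrami b (metricMatrix b x₀) (fun y => f ((extChartAt 𝓘(ℝ, E) x₀).symm y)) z
      + lam * f ((extChartAt 𝓘(ℝ, E) x₀).symm z) = 0
  ne : ∃ x, f x ≠ 0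

end

/-- Quasi-symmetry for surfaces given by isothermal charts. -/
theorem isothermal : ∀ (M : Type u) (ι : Type v) [MetricSpace M] [CompactSpace M] [ConnectedSpace M]
    [MeasurableSpace M] [BorelSpace M] (U : ι → Set ℂ) (φ : ι → ℂ → M) (ρ : ι → ℂ → ℝ),
    RiemannianSurface U φ ρ → ∃ c C : ℝ, 0 < c ∧ c < C ∧
      ∀ (lam : ℝ) (f : M → ℝ), 0 < lam → IsEigenfunction U φ ρ lam f →
        0 < μH[2] {x | 0 < f x} ∧ μH[2] {x | 0 < f x} < ⊤ ∧
        0 < μH[2] {x | f x < 0} ∧ μH[2] {x | f x < 0} < ⊤ ∧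
        c < (μH[2] {x | 0 < f x}).toReal / (μH[2] {x | f x < 0}).toReal ∧
        (μH[2] {x | 0 < f x}).toReal / (μH[2] {x | f x < 0}).toReal < C := by
  intro M ι _ _ _ _ _ U φ ρ h
  have hR : Pool.Agent.Q73.AD.Riem U φ ρ := ⟨h.isOpen_domain, h.injective_chart, h.continuous_chart, h.open_chart,
    h.cover, h.density_pos, h.density_smooth, h.transition, h.geodesic⟩
  have hatl := Pool.Agent.Q73.AD.tr1 M ι U φ ρ hR
  obtain ⟨c₀, hc₀, hpos⟩ := Pool.Agent.Q73.AD.finq.{u, v} M ι U φ ρ hatl h.density_pos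
  have hfin : μH[2] (Set.univ : Set M) < ⊤ := (Pool.Agent.Q73.AD.tqf.{u, v} M).2 ι U φ ρ hatl
  set S : ℝ := (μH[2] (Set.univ : Set M)).toReal with hS
  have hle : ∀ E : Set M, (μH[2] E).toReal ≤ S := fun E =>
    ENNReal.toReal_mono hfin.ne (measure_mono (Set.subset_univ _))
  have hlt : ∀ E : Set M, μH[2] E < ⊤ := fun E =>
    lt_of_le_of_lt (measure_mono (Set.subset_univ _)) hfin
  have hS0 : 0 ≤ S := ENNReal.toReal_nonneg
  refine ⟨c₀ / (2 * (S + 1)), (2 * (S + 1)) / c₀ + c₀ / (2 * (S + 1)), by positivity, by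
    have : 0 < (2 * (S + 1)) / c₀ := by positivity
    linarith, fun lam f hlam hf => ?_⟩
  have hf' : IsEigenfunction U φ ρ lam (fun x => -f x) := by
    refine ⟨fun i => (hf.smooth i).neg, fun i z hz => ?_, ?_⟩
    · have h1 := hf.eq i z hz
      have h2 : laplacian (fun z => -f (φ i z)) z = -laplacian (fun z => f (φ i z)) z := by
        unfold laplacian
        have e1 : ∀ v : ℂ, (fun w => fderiv ℝ (fun z => -f (φ i z)) w v) =
            fun w => -fderiv ℝ (fun z => f (φ i z)) w v := by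
          intro v
          funext w
          rw [fderiv_fun_neg]
          rfl
        rw [e1, e1, fderiv_fun_neg, fderiv_fun_neg]
        simp only [ContinuousLinearMap.neg_apply]
        ring
      rw [h2]
      linarith
    · obtain ⟨x, hx⟩ := hf.ne
      exact ⟨x, neg_ne_zero.2 hx⟩
  have h1 : c₀ ≤ (μH[2] {x | 0 < f x}).toReal :=
    hpos lam f hlam (fun i => ⟨hf.smooth i, hf.eq i⟩) hf.ne
  have h2 : c₀ ≤ (μH[2] {x | f x < 0}).toReal := by
    have := hpos lam (fun x => -f x) hlam (fun i => ⟨hf'.smooth i, hf'.eq i⟩) hf'.ne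
    simpa using this
  have hp1 : 0 < (μH[2] {x | 0 < f x}).toReal := lt_of_lt_of_le hc₀ h1
  have hp2 : 0 < (μH[2] {x | f x < 0}).toReal := lt_of_lt_of_le hc₀ h2
  have hu1 := hle {x | 0 < f x}
  have hu2 := hle {x | f x < 0}
  refine ⟨(ENNReal.toReal_pos_iff.1 hp1).1, hlt _, (ENNReal.toReal_pos_iff.1 hp2).1, hlt _, ?_, ?_⟩
  · rw [div_lt_div_iff₀ (by positivity) hp2]
    nlinarith
  · have e1 : (μH[2] {x | 0 < f x}).toReal / (μH[2] {x | f x < 0}).toReal < 2 * (S + 1) / c₀ := by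
      rw [div_lt_div_iff₀ hp2 hc₀]
      nlinarith
    have e2 : 0 < c₀ / (2 * (S + 1)) := by positivity
    linarith

/-- **Quasi-symmetry.** On every closed connected Riemannian surface (smooth Riemannian manifold of dimension
two, in the sense of Mathlib, with its geodesic distance) there are `0 < c < C` such that for all
eigenfunctions `f` with eigenvalue `lam > 0` the sets `{f > 0}` and `{f < 0}` have positive finite area and the
ratio of their areas is between `c` and `C`. -/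
theorem result : ∀ (E : Type v) [NormedAddCommGroup E] [NormedSpace ℝ E] (b : Module.Basis (Fin 2) ℝ E)
    (M : Type u) [MetricSpace M] [ChartedSpace E M] [IsManifold 𝓘(ℝ, E) ∞ M]
    [RiemannianBundle (fun x : M => TangentSpace 𝓘(ℝ, E) x)]
    [IsContMDiffRiemannianBundle 𝓘(ℝ, E) ∞ E (fun x : M => TangentSpace 𝓘(ℝ, E) x)]
    [IsRiemannianManifold 𝓘(ℝ, E) M] [CompactSpace M] [ConnectedSpace M]
    [MeasurableSpace M] [BorelSpace M], ∃ c C : ℝ, 0 < c ∧ c < C ∧
      ∀ (lam : ℝ) (f : M → ℝ), 0 < lam → IsEigenfunctionOn b lam f →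
        0 < μH[2] {x | 0 < f x} ∧ μH[2] {x | 0 < f x} < ⊤ ∧
        0 < μH[2] {x | f x < 0} ∧ μH[2] {x | f x < 0} < ⊤ ∧
        c < (μH[2] {x | 0 < f x}).toReal / (μH[2] {x | f x < 0}).toReal ∧
        (μH[2] {x | 0 < f x}).toReal / (μH[2] {x | f x < 0}).toReal < C := by
  intro E _ _ b M _ _ _ _ _ _ _ _ _ _
  obtain ⟨U, φ, ρ, hR, -, hE⟩ := Pool.Agent.Q63.ISE.atlas b M
  obtain ⟨c, C, hc, hC, hK⟩ := isothermal.{u, u} M M U φ ρ ⟨hR.dom, hR.inj, hR.cont,
    hR.opn, hR.cover, hR.pos, hR.dens, hR.trans, hR.geod⟩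
  refine ⟨c, C, hc, hC, fun lam f hlam hf => hK lam f hlam ?_⟩
  have h := hE lam f ⟨hf.smooth, hf.eq⟩
  exact ⟨fun i => (h i).1, fun i => (h i).2, hf.ne⟩

end

end Pool.Agent.Results.MP_177f55_an.QuasiSymmetry
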